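import Pool.Agent.LE.StmtsP

/-!
# Squad LSP, row PAI (helper67): the pairing with the test multiplier
-/

set_option autoImplicit false

open MeasureTheory Set Real Function

open scoped ENNReal ComplexConjugate BigOperators

noncomputable section

namespace Pool.Agent.LE.CL.H67

open Pool.Agent.Anderson hiding box mem_box card_box
open Pool.Agent.LE.MN

variable {d : ℕ}

/-! ### 1. The equation on the torus -/

theorem lap_lin {C : Finset (Site d)} (ψ : Site d → Site d → ℂ) (v : C → ℂ) (y : Site d) :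
    lap (lin C ψ v) y = ∑ x : C, v x * lap (ψ x) y := by
  unfold lap lin
  simp only [Finset.mul_sum]
  rw [Finset.sum_comm]
  refine Finset.sum_congr rfl fun i _ => ?_
  rw [← Finset.sum_add_distrib]
  exact Finset.sum_congr rfl fun x _ => by ring

theorem lin_zero {C C' : Finset (Site d)} {ψ : Site d → Site d → ℂ}
    (h : ∀ x ∈ C, ∀ y, y ∉ C' → ψ x y = 0) (v : C → ℂ) (y : Site d) (hy : y ∉ C') :
    lin C ψ v y = 0 := by
  unfold lin
  exact Finset.sum_eq_zero fun x _ => by rw [h x x.2 y hy, mul_zero]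

theorem eq_hat {C C' B : Finset (Site d)} {D : Site d → ℝ} {ψ F e : Site d → Site d → ℂ}
    {E η ω ε τ : ℝ} (hS : Sys C C' B D ψ F e E η ω ε τ) (v : C → ℂ)
    (θ : UnitAddTorus (Fin d)) :
    ((sy θ - E : ℝ) : ℂ) * hatS C' (lin C ψ v) θ = hatS B (lin C F v) θ + hatS B (lin C e v) θ -
      hatV v θ - hatS C' (fun y => (D y : ℂ) * lin C ψ v y) θ := by
  classical
  obtain ⟨h1, h2, h3, h4, h5, -⟩ := hS
  have hw := lin_zero h4 v
  have hl := hat_lap hw h3 θ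
  have hB := hatS_mono h2 hw θ
  have hD := hatS_mono h2 (w := fun y => (D y : ℂ) * lin C ψ v y)
    (fun y hy => by rw [hw y hy, mul_zero]) θ
  have hV : hatV v θ = ∑ y ∈ B, (∑ x : C, v x * (if y = (x : Site d) then 1 else 0)) * ch y θ := by
    unfold hatV
    simp only [Finset.sum_mul]
    rw [Finset.sum_comm]
    refine Finset.sum_congr rfl fun x _ => ?_
    rw [Finset.sum_eq_single_of_mem (x : Site d) (h2 (h1 x.2))]
    · rw [if_pos rfl, mul_one]
    · intro y _ hy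
      rw [if_neg hy, mul_zero, zero_mul]
  have hpt : ∀ y, lap (lin C ψ v) y + (D y : ℂ) * lin C ψ v y - (E : ℂ) * lin C ψ v y =
      lin C F v y + lin C e v y - ∑ x : C, v x * (if y = (x : Site d) then 1 else 0) := by
    intro y
    rw [lap_lin]
    unfold lin
    rw [Finset.mul_sum, Finset.mul_sum, ← Finset.sum_add_distrib, ← Finset.sum_sub_distrib,
      ← Finset.sum_add_distrib, ← Finset.sum_sub_distrib]
    refine Finset.sum_congr rfl fun x _ => ?_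
    have h6 := h5 x x.2 y
    linear_combination v x * h6
  have hsum : hatS B (lap (lin C ψ v)) θ + hatS B (fun y => (D y : ℂ) * lin C ψ v y) θ -
      (E : ℂ) * hatS B (lin C ψ v) θ =
      hatS B (lin C F v) θ + hatS B (lin C e v) θ - hatV v θ := by
    rw [hV]
    unfold hatS
    rw [Finset.mul_sum, ← Finset.sum_add_distrib, ← Finset.sum_sub_distrib,
      ← Finset.sum_add_distrib, ← Finset.sum_sub_distrib]
    refine Finset.sum_congr rfl fun y _ => ?_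
    linear_combination ch y θ * hpt y
  rw [hl, hB, hD] at hsum
  push_cast
  linear_combination hsum

/-! ### 2. Bessel -/

theorem bes_hat {C : Finset (Site d)} {v : C → C → ℂ} (hv : Bes C v)
    (θ : UnitAddTorus (Fin d)) : ∑ k, ‖hatV (v k) θ‖ ^ 2 ≤ C.card := by
  have h1 := hv (fun x => ch (x : Site d) θ)
  have h2 : ∑ x : C, ‖ch (x : Site d) θ‖ ^ 2 = C.card := by
    simp only [norm_ch, one_pow, Finset.sum_const, Finset.card_univ, Fintype.card_coe,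
      nsmul_eq_mul, mul_one]
  rw [h2] at h1
  refine le_trans (le_of_eq (Finset.sum_congr rfl fun k _ => ?_)) h1
  unfold hatV
  congr 2
  exact Finset.sum_congr rfl fun x _ => mul_comm _ _

theorem bes_lin {C : Finset (Site d)} {v : C → C → ℂ} (hv : Bes C v)
    (e : Site d → Site d → ℂ) (y : Site d) :
    ∑ k, ‖lin C e (v k) y‖ ^ 2 ≤ ∑ x : C, ‖e x y‖ ^ 2 := by
  refine le_trans (le_of_eq (Finset.sum_congr rfl fun k _ => ?_)) (hv (fun x => e x y))
  unfold lin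
  congr 2
  exact Finset.sum_congr rfl fun x _ => mul_comm _ _

theorem err_e {C B : Finset (Site d)} {v : C → C → ℂ} (hv : Bes C v)
    (e : Site d → Site d → ℂ) {ε : ℝ} (he : ∀ x ∈ C, ∑ y ∈ B, ‖e x y‖ ^ 2 ≤ ε) :
    ∑ k, ∑ y ∈ B, ‖lin C e (v k) y‖ ^ 2 ≤ C.card * ε := by
  rw [Finset.sum_comm]
  refine le_trans (Finset.sum_le_sum fun y _ => bes_lin hv e y) ?_
  rw [Finset.sum_comm]
  refine le_trans (Finset.sum_le_sum fun x _ => he x x.2) ?_
  rw [Finset.sum_const, Finset.card_univ, Fintype.card_coe, nsmul_eq_mul]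

/-! ### 3. Integrals -/

theorem int_c {q : UnitAddTorus (Fin d) → ℝ} (hq : Measurable q) {K : ℝ} (hK : ∀ θ, |q θ| ≤ K)
    {f : UnitAddTorus (Fin d) → ℂ} (hf : Continuous f) :
    Integrable (fun θ => (q θ : ℂ) * f θ) :=
  (integrable_of_cont hf).bdd_mul (c := K)
    (Complex.measurable_ofReal.comp hq).aestronglyMeasurable
    (Filter.Eventually.of_forall fun θ => by
      rw [Complex.norm_real, Real.norm_eq_abs]
      exact hK θ)

theorem int_r {q : UnitAddTorus (Fin d) → ℝ} (hq : Measurable q) {K : ℝ} (hK : ∀ θ, |q θ| ≤ K)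
    {f : UnitAddTorus (Fin d) → ℝ} (hf : Continuous f) :
    Integrable (fun θ => q θ * f θ) :=
  (integrable_of_cont hf).bdd_mul (c := K) hq.aestronglyMeasurable
    (Filter.Eventually.of_forall fun θ => by
      rw [Real.norm_eq_abs]
      exact hK θ)

/-- the pairing in terms of the kernel -/
theorem pair_ker {C C' : Finset (Site d)} {p : UnitAddTorus (Fin d) → ℝ} (hp : Measurable p)
    {K : ℝ} (hK : ∀ θ, |p θ| ≤ K) (g : Site d → ℂ) (v : C → ℂ) :
    ∫ θ, (p θ : ℂ) * (hatS C' g θ * conj (hatV v θ)) =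
      ∑ y ∈ C', g y * ∑ x : C, conj (v x) * ∫ θ, (p θ : ℂ) * ch (y - (x : Site d)) θ := by
  have h1 : ∀ θ, (p θ : ℂ) * (hatS C' g θ * conj (hatV v θ)) =
      ∑ y ∈ C', ∑ x : C, (g y * conj (v x)) * ((p θ : ℂ) * ch (y - (x : Site d)) θ) := by
    intro θ
    unfold hatS hatV
    rw [map_sum, Finset.sum_mul_sum, Finset.mul_sum]
    refine Finset.sum_congr rfl fun y _ => ?_
    rw [Finset.mul_sum]
    refine Finset.sum_congr rfl fun x _ => ?_
    rw [map_mul, sub_eq_add_neg, ch_add, ch_neg]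
    ring
  have hi : ∀ (y : Site d) (x : C), Integrable (fun θ => (g y * conj (v x)) *
      ((p θ : ℂ) * ch (y - (x : Site d)) θ)) := fun y x =>
    (int_c hp hK (continuous_ch _)).const_mul _
  simp only [h1]
  rw [integral_finsetSum _ (fun y _ => integrable_finsetSum _ fun x _ => hi y x)]
  refine Finset.sum_congr rfl fun y _ => ?_
  rw [integral_finsetSum _ (fun x _ => hi y x), Finset.mul_sum]
  refine Finset.sum_congr rfl fun x _ => ?_
  rw [integral_const_mul]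
  ring

/-- the upper bound for the pairing -/
theorem pair_le {C C' : Finset (Site d)} {v : C → C → ℂ} (hv : Bes C v)
    {p : UnitAddTorus (Fin d) → ℝ} (hp : Measurable p)
    {K : ℝ} (hK : ∀ θ, |p θ| ≤ K) {κ : ℝ}
    (hκ : ∀ y : Site d, ‖∫ θ, (p θ : ℂ) * ch y θ‖ ≤ κ) (g : C → Site d → ℂ) {t : ℝ} (ht : 0 < t) :
    ∑ k : C, ‖∫ θ, (p θ : ℂ) * (hatS C' (g k) θ * conj (hatV (v k) θ))‖ ≤
      t / 2 * ∑ k : C, ∑ y ∈ C', ‖g k y‖ ^ 2 + 1 / (2 * t) * (C'.card * (C.card * κ ^ 2)) := by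
  have hκ0 : 0 ≤ κ := le_trans (norm_nonneg _) (hκ 0)
  set h : C → Site d → ℂ := fun k y =>
    ∑ x : C, conj (v k x) * ∫ θ, (p θ : ℂ) * ch (y - (x : Site d)) θ with hh
  have h1 : ∀ k : C, ‖∫ θ, (p θ : ℂ) * (hatS C' (g k) θ * conj (hatV (v k) θ))‖ ≤
      t / 2 * ∑ y ∈ C', ‖g k y‖ ^ 2 + 1 / (2 * t) * ∑ y ∈ C', ‖h k y‖ ^ 2 := by
    intro k
    rw [pair_ker hp hK]
    refine le_trans (norm_sum_le _ _) ?_
    rw [Finset.mul_sum, Finset.mul_sum, ← Finset.sum_add_distrib]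
    refine Finset.sum_le_sum fun y _ => ?_
    rw [norm_mul]
    change ‖g k y‖ * ‖h k y‖ ≤ _
    have h2 : t / 2 * ‖g k y‖ ^ 2 + 1 / (2 * t) * ‖h k y‖ ^ 2 - ‖g k y‖ * ‖h k y‖ =
        1 / (2 * t) * (t * ‖g k y‖ - ‖h k y‖) ^ 2 := by
      field_simp
      ring
    have h3 : 0 ≤ 1 / (2 * t) * (t * ‖g k y‖ - ‖h k y‖) ^ 2 := by positivity
    linarith
  have h4 : ∀ y, ∑ k : C, ‖h k y‖ ^ 2 ≤ C.card * κ ^ 2 := by
    intro y
    have h5 := hv (fun x : C => conj (∫ θ, (p θ : ℂ) * ch (y - (x : Site d)) θ))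
    have h6 : ∀ k : C, ‖h k y‖ =
        ‖∑ x : C, conj (∫ θ, (p θ : ℂ) * ch (y - (x : Site d)) θ) * v k x‖ := by
      intro k
      rw [← Complex.norm_conj]
      congr 1
      rw [hh]
      beta_reduce
      rw [map_sum]
      exact Finset.sum_congr rfl fun x _ => by rw [map_mul, Complex.conj_conj, mul_comm]
    simp only [h6]
    refine le_trans h5 ?_
    have h7 : ∀ x : C, ‖conj (∫ θ, (p θ : ℂ) * ch (y - (x : Site d)) θ)‖ ^ 2 ≤ κ ^ 2 := by
      intro x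
      rw [Complex.norm_conj]
      exact pow_le_pow_left₀ (norm_nonneg _) (hκ _) 2
    refine le_trans (Finset.sum_le_sum fun x _ => h7 x) ?_
    rw [Finset.sum_const, Finset.card_univ, Fintype.card_coe, nsmul_eq_mul]
  refine le_trans (Finset.sum_le_sum fun k _ => h1 k) ?_
  rw [Finset.sum_add_distrib, ← Finset.mul_sum, ← Finset.mul_sum]
  have h8 : ∑ k : C, ∑ y ∈ C', ‖h k y‖ ^ 2 ≤ C'.card * (C.card * κ ^ 2) := by
    rw [Finset.sum_comm]
    refine le_trans (Finset.sum_le_sum fun y _ => h4 y) ?_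
    rw [Finset.sum_const, nsmul_eq_mul]
  have h9 : 0 ≤ 1 / (2 * t) := by positivity
  have h10 := mul_le_mul_of_nonneg_left h8 h9
  linarith

/-! ### 4. The errors -/

theorem md_le (E : ℝ) {η : ℝ} (hη : 0 < η) (θ : UnitAddTorus (Fin d)) :
    md E η θ ≤ |sy θ - E| + η := by
  unfold md
  apply Real.sqrt_le_iff.2
  have h1 := sq_abs (sy θ - E)
  have h2 := abs_nonneg (sy θ - E)
  refine ⟨by positivity, ?_⟩
  nlinarith

theorem one_k {C C' B : Finset (Site d)} {D : Site d → ℝ} {ψ F e : Site d → Site d → ℂ}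
    {E η ω ε τ : ℝ} (hS : Sys C C' B D ψ F e E η ω ε τ) (hη : 0 < η)
    {q : UnitAddTorus (Fin d) → ℝ} (hq : Measurable q) {K : ℝ} (hK : ∀ θ, |q θ| ≤ K)
    {s : ℝ} (hs : 0 < s) (v : C → ℂ) :
    ‖(∫ θ, ((q θ * (sy θ - E) : ℝ) : ℂ) * (hatS C' (lin C ψ v) θ * conj (hatV v θ))) +
        ((∫ θ, q θ * ‖hatV v θ‖ ^ 2 : ℝ) : ℂ)‖ ≤
      1 / (2 * η) * (∫ θ, ‖hatS B (lin C F v) θ‖ ^ 2) +
        1 / (2 * η) * (∫ θ, ‖hatS B (lin C e v) θ‖ ^ 2) +
        1 / (2 * s) * (∫ θ, (md E η θ)⁻¹ *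
          ‖hatS C' (fun y => (D y : ℂ) * lin C ψ v y) θ‖ ^ 2) +
        ∫ θ, q θ ^ 2 * ((η + s / 2 * md E η θ) * ‖hatV v θ‖ ^ 2) := by
  have cG := continuous_hatS C' (lin C ψ v)
  have cV := continuous_hatV v
  have cF := continuous_hatS B (lin C F v)
  have ce := continuous_hatS B (lin C e v)
  have cD := continuous_hatS C' (fun y => (D y : ℂ) * lin C ψ v y)
  have cs := continuous_sy (d := d)
  have cm := continuous_md (d := d) E η
  have cmi : Continuous fun θ : UnitAddTorus (Fin d) => (md E η θ)⁻¹ :=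
    cm.inv₀ (fun θ => (md_pos hη θ).ne')
  have hq2 : Measurable fun θ => q θ ^ 2 := hq.pow_const 2
  have hK2 : ∀ θ, |q θ ^ 2| ≤ K ^ 2 := fun θ => by
    rw [abs_pow]
    exact pow_le_pow_left₀ (abs_nonneg _) (hK θ) 2
  have hi1 : Integrable (fun θ => ((q θ * (sy θ - E) : ℝ) : ℂ) *
      (hatS C' (lin C ψ v) θ * conj (hatV v θ))) := by
    have h1 : (fun θ => ((q θ * (sy θ - E) : ℝ) : ℂ) *
        (hatS C' (lin C ψ v) θ * conj (hatV v θ))) = fun θ => (q θ : ℂ) *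
        (((sy θ - E : ℝ) : ℂ) * (hatS C' (lin C ψ v) θ * conj (hatV v θ))) := by
      funext θ
      push_cast
      ring
    rw [h1]
    apply int_c hq hK
    fun_prop
  have hi2 : Integrable (fun θ => ((q θ * ‖hatV v θ‖ ^ 2 : ℝ) : ℂ)) := by
    have h1 : (fun θ => ((q θ * ‖hatV v θ‖ ^ 2 : ℝ) : ℂ)) = fun θ => (q θ : ℂ) *
        ((‖hatV v θ‖ ^ 2 : ℝ) : ℂ) := by
      funext θ
      push_cast
      ring
    rw [h1]
    apply int_c hq hK
    fun_prop
  rw [← integral_complex_ofReal, ← integral_add hi1 hi2]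
  have hj1 : Integrable (fun θ => 1 / (2 * η) * ‖hatS B (lin C F v) θ‖ ^ 2) := by
    apply integrable_of_cont
    fun_prop
  have hj2 : Integrable (fun θ => 1 / (2 * η) * ‖hatS B (lin C e v) θ‖ ^ 2) := by
    apply integrable_of_cont
    fun_prop
  have hj3 : Integrable (fun θ => 1 / (2 * s) * ((md E η θ)⁻¹ *
      ‖hatS C' (fun y => (D y : ℂ) * lin C ψ v y) θ‖ ^ 2)) := by
    apply integrable_of_cont
    fun_prop
  have hj4 : Integrable (fun θ => q θ ^ 2 * ((η + s / 2 * md E η θ) * ‖hatV v θ‖ ^ 2)) := by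
    apply int_r hq2 hK2
    fun_prop
  have hj12 : Integrable (fun θ => 1 / (2 * η) * ‖hatS B (lin C F v) θ‖ ^ 2 +
      1 / (2 * η) * ‖hatS B (lin C e v) θ‖ ^ 2) := hj1.add hj2
  have hj123 : Integrable (fun θ => 1 / (2 * η) * ‖hatS B (lin C F v) θ‖ ^ 2 +
      1 / (2 * η) * ‖hatS B (lin C e v) θ‖ ^ 2 + 1 / (2 * s) * ((md E η θ)⁻¹ *
      ‖hatS C' (fun y => (D y : ℂ) * lin C ψ v y) θ‖ ^ 2)) := hj12.add hj3
  rw [← integral_const_mul, ← integral_const_mul, ← integral_const_mul, ← integral_add hj1 hj2,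
    ← integral_add hj12 hj3, ← integral_add hj123 hj4]
  refine norm_integral_le_of_norm_le (hj123.add hj4)
    (Filter.Eventually.of_forall fun θ => ?_)
  have hm := md_pos (E := E) hη θ
  have hVV : ((‖hatV v θ‖ ^ 2 : ℝ) : ℂ) = hatV v θ * conj (hatV v θ) := by
    rw [Complex.mul_conj, Complex.normSq_eq_norm_sq]
  have heq : ((q θ * (sy θ - E) : ℝ) : ℂ) * (hatS C' (lin C ψ v) θ * conj (hatV v θ)) +
      ((q θ * ‖hatV v θ‖ ^ 2 : ℝ) : ℂ) = (q θ : ℂ) * (hatS B (lin C F v) θ +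
        hatS B (lin C e v) θ - hatS C' (fun y => (D y : ℂ) * lin C ψ v y) θ) *
        conj (hatV v θ) := by
    have h1 := eq_hat hS v θ
    rw [Complex.ofReal_mul, Complex.ofReal_mul (q θ), hVV]
    linear_combination (q θ : ℂ) * conj (hatV v θ) * h1
  rw [heq, norm_mul, norm_mul, Complex.norm_real, Real.norm_eq_abs, Complex.norm_conj]
  set a := ‖hatS B (lin C F v) θ‖ with ha
  set b := ‖hatS B (lin C e v) θ‖ with hb
  set c := ‖hatS C' (fun y => (D y : ℂ) * lin C ψ v y) θ‖ with hc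
  set w := ‖hatV v θ‖ with hw
  set m := md E η θ with hmd
  have hn : ‖hatS B (lin C F v) θ + hatS B (lin C e v) θ -
      hatS C' (fun y => (D y : ℂ) * lin C ψ v y) θ‖ ≤ a + b + c :=
    (norm_sub_le _ _).trans (add_le_add_left (norm_add_le _ _) _)
  have hw0 : 0 ≤ w := norm_nonneg _
  have h1 : |q θ| * ‖hatS B (lin C F v) θ + hatS B (lin C e v) θ -
      hatS C' (fun y => (D y : ℂ) * lin C ψ v y) θ‖ * w ≤ |q θ| * (a + b + c) * w :=
    mul_le_mul_of_nonneg_right (mul_le_mul_of_nonneg_left hn (abs_nonneg _)) hw0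
  have hqq : q θ ^ 2 = |q θ| ^ 2 := (sq_abs _).symm
  rw [hqq]
  set Q := |q θ| with hQ
  have e1 : 0 ≤ 1 / (2 * η) * (a - η * (Q * w)) ^ 2 := by positivity
  have e2 : 0 ≤ 1 / (2 * η) * (b - η * (Q * w)) ^ 2 := by positivity
  have e3 : 0 ≤ 1 / (2 * s) * (m⁻¹ * (c - s * m * (Q * w)) ^ 2) := by positivity
  have e1' : 1 / (2 * η) * (a - η * (Q * w)) ^ 2 = 1 / (2 * η) * a ^ 2 - Q * a * w +
      η / 2 * (Q ^ 2 * w ^ 2) := by
    field_simp
    ring
  have e2' : 1 / (2 * η) * (b - η * (Q * w)) ^ 2 = 1 / (2 * η) * b ^ 2 - Q * b * w +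
      η / 2 * (Q ^ 2 * w ^ 2) := by
    field_simp
    ring
  have e3' : 1 / (2 * s) * (m⁻¹ * (c - s * m * (Q * w)) ^ 2) =
      1 / (2 * s) * (m⁻¹ * c ^ 2) - Q * c * w + s / 2 * m * (Q ^ 2 * w ^ 2) := by
    field_simp
    ring
  rw [e1'] at e1
  rw [e2'] at e2
  rw [e3'] at e3
  refine le_trans h1 ?_
  nlinarith

/-- the sum of the errors -/
theorem all_k {C C' B : Finset (Site d)} {D : Site d → ℝ} {ψ F e : Site d → Site d → ℂ}
    {E η ω ε τ : ℝ} (hS : Sys C C' B D ψ F e E η ω ε τ) (hη : 0 < η)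
    {q : UnitAddTorus (Fin d) → ℝ} (hq : Measurable q) {K : ℝ} (hK : ∀ θ, |q θ| ≤ K)
    {s : ℝ} (hs : 0 < s) {v : C → C → ℂ} (hv : Bes C v) {Q2 QX a2 Y2 : ℝ}
    (h2 : ∫ θ, q θ ^ 2 ≤ Q2) (hX : ∫ θ, q θ ^ 2 * |sy θ - E| ≤ QX)
    (ha : ∑ k, ∑ y ∈ C', ‖lin C ψ (v k) y‖ ^ 2 ≤ a2)
    (hY : ∑ k, ∫ θ, md E η θ * ‖hatS C' (lin C ψ (v k)) θ‖ ^ 2 ≤ Y2) :
    ∑ k : C, ‖(∫ θ, ((q θ * (sy θ - E) : ℝ) : ℂ) *
        (hatS C' (lin C ψ (v k)) θ * conj (hatV (v k) θ))) +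
        ((∫ θ, q θ * ‖hatV (v k) θ‖ ^ 2 : ℝ) : ℂ)‖ ≤
      1 / (2 * η) * (ω ^ 2 * a2) + 1 / (2 * η) * (C.card * ε) + 1 / (2 * s) * (τ ^ 2 * Y2) +
        C.card * (η * Q2 + s / 2 * (QX + η * Q2)) := by
  have hS' := hS
  obtain ⟨g1, g2, g3, g4, g5, g6, g7, g8, g9⟩ := hS'
  refine le_trans (Finset.sum_le_sum fun k _ => one_k hS hη hq hK hs (v k)) ?_
  rw [Finset.sum_add_distrib, Finset.sum_add_distrib, Finset.sum_add_distrib, ← Finset.mul_sum,
    ← Finset.mul_sum, ← Finset.mul_sum]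
  have i1 : 0 ≤ 1 / (2 * η) := by positivity
  have i2 : 0 ≤ 1 / (2 * s) := by positivity
  -- F
  have t1 : ∑ k : C, ∫ θ, ‖hatS B (lin C F (v k)) θ‖ ^ 2 ≤ ω ^ 2 * a2 := by
    simp only [parsevalS]
    refine le_trans (Finset.sum_le_sum fun k _ => g7 (v k)) ?_
    rw [← Finset.mul_sum]
    exact mul_le_mul_of_nonneg_left ha (sq_nonneg _)
  -- e
  have t2 : ∑ k : C, ∫ θ, ‖hatS B (lin C e (v k)) θ‖ ^ 2 ≤ C.card * ε := by
    simp only [parsevalS]
    exact err_e hv e g8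
  -- D
  have t3 : ∑ k : C, ∫ θ, (md E η θ)⁻¹ *
      ‖hatS C' (fun y => (D y : ℂ) * lin C ψ (v k) y) θ‖ ^ 2 ≤ τ ^ 2 * Y2 := by
    refine le_trans (Finset.sum_le_sum fun k _ => g9 (lin C ψ (v k)) (lin_zero g4 (v k))) ?_
    rw [← Finset.mul_sum]
    exact mul_le_mul_of_nonneg_left hY (sq_nonneg _)
  -- the pointwise Bessel inequality
  have t4 : ∑ k : C, ∫ θ, q θ ^ 2 * ((η + s / 2 * md E η θ) * ‖hatV (v k) θ‖ ^ 2) ≤
      C.card * (η * Q2 + s / 2 * (QX + η * Q2)) := by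
    have hq2 : Measurable fun θ => q θ ^ 2 := hq.pow_const 2
    have hK2 : ∀ θ, |q θ ^ 2| ≤ K ^ 2 := fun θ => by
      rw [abs_pow]
      exact pow_le_pow_left₀ (abs_nonneg _) (hK θ) 2
    have cs := continuous_sy (d := d)
    have cm := continuous_md (d := d) E η
    have hi : ∀ k : C, Integrable
        (fun θ => q θ ^ 2 * ((η + s / 2 * md E η θ) * ‖hatV (v k) θ‖ ^ 2)) := by
      intro k
      have cV := continuous_hatV (v k)
      apply int_r hq2 hK2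
      fun_prop
    rw [← integral_finsetSum _ (fun k _ => hi k)]
    have hj0 : Integrable (fun θ => q θ ^ 2) := by
      have h := int_r hq2 hK2 (continuous_const (y := (1 : ℝ)))
      simpa using h
    have hj1 : Integrable (fun θ => q θ ^ 2 * |sy θ - E|) := by
      apply int_r hq2 hK2
      fun_prop
    have hN : (0 : ℝ) ≤ C.card := Nat.cast_nonneg _
    have hle : ∫ θ, ∑ k : C, q θ ^ 2 * ((η + s / 2 * md E η θ) * ‖hatV (v k) θ‖ ^ 2) ≤
        ∫ θ, (C.card : ℝ) * ((η + s / 2 * η) * q θ ^ 2 + s / 2 * (q θ ^ 2 * |sy θ - E|)) := by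
      refine integral_mono (integrable_finsetSum _ fun k _ => hi k)
        (((hj0.const_mul _).add (hj1.const_mul _)).const_mul _) fun θ => ?_
      have h5 := bes_hat hv θ
      have h6 := md_le E hη θ
      have h7 := md_pos (E := E) hη θ
      have h8 : ∑ k : C, q θ ^ 2 * ((η + s / 2 * md E η θ) * ‖hatV (v k) θ‖ ^ 2) =
          q θ ^ 2 * (η + s / 2 * md E η θ) * ∑ k : C, ‖hatV (v k) θ‖ ^ 2 := by
        rw [Finset.mul_sum]
        exact Finset.sum_congr rfl fun k _ => by ring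
      beta_reduce
      rw [h8]
      have h9 : q θ ^ 2 * (η + s / 2 * md E η θ) * ∑ k : C, ‖hatV (v k) θ‖ ^ 2 ≤
          q θ ^ 2 * (η + s / 2 * md E η θ) * C.card :=
        mul_le_mul_of_nonneg_left h5 (by positivity)
      have h10 : q θ ^ 2 * (η + s / 2 * md E η θ) * (C.card : ℝ) ≤
          q θ ^ 2 * (η + s / 2 * (|sy θ - E| + η)) * C.card := by
        apply mul_le_mul_of_nonneg_right _ hN
        apply mul_le_mul_of_nonneg_left _ (sq_nonneg _)
        have := mul_le_mul_of_nonneg_left h6 (by positivity : 0 ≤ s / 2)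
        linarith
      refine h9.trans (h10.trans (le_of_eq ?_))
      ring
    refine hle.trans ?_
    rw [integral_const_mul, integral_add (hj0.const_mul _) (hj1.const_mul _), integral_const_mul,
      integral_const_mul]
    apply mul_le_mul_of_nonneg_left _ hN
    have k1 := mul_le_mul_of_nonneg_left h2 (by positivity : 0 ≤ η + s / 2 * η)
    have k2 := mul_le_mul_of_nonneg_left hX (by positivity : 0 ≤ s / 2)
    refine (add_le_add k1 k2).trans (le_of_eq ?_)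
    ring
  exact add_le_add (add_le_add (add_le_add (mul_le_mul_of_nonneg_left t1 i1)
    (mul_le_mul_of_nonneg_left t2 i1)) (mul_le_mul_of_nonneg_left t3 i2)) t4

/-! ### 5. The theorem -/

/-- the numbers for the errors -/
theorem num_err {C₂ CT cT c s η T ω ε τ L N K : ℝ} (hC₂ : 1 ≤ C₂) (hCT : 1 ≤ CT) (hc : 0 < c)
    (hc1 : c ≤ 1) (hs0 : 0 < s) (hs1 : s ≤ 1) (hss : s ^ 2 = c) (hη : 0 < η) (hω : 0 ≤ ω)
    (hωc : ω ≤ c * η) (hεc : ε ≤ c * η) (hτc : τ ^ 2 * L ≤ c) (hηT : η * T ≤ CT * c)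
    (hN : 0 < N) (hK : K = C₂ + 1 / 2 + 2 * CT ^ 2) (hsK : K * s ≤ cT / 4) :
    1 / (2 * η) * (ω ^ 2 * (C₂ * N / η)) + 1 / (2 * η) * (N * ε) +
      1 / (2 * s) * (τ ^ 2 * (C₂ * N * L)) +
        N * (η * (CT * T) + s / 2 * (CT + η * (CT * T))) ≤ cT / 4 * N := by
  have hcs : c ≤ s := by
    rw [← hss]
    calc s ^ 2 = s * s := by ring
      _ ≤ s * 1 := mul_le_mul_of_nonneg_left hs1 hs0.le
      _ = s := mul_one s
  have hcc : c ^ 2 ≤ s := by
    calc c ^ 2 = c * c := by ring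
      _ ≤ c * 1 := mul_le_mul_of_nonneg_left hc1 hc.le
      _ = c := mul_one c
      _ ≤ s := hcs
  have b1 : 1 / (2 * η) * (ω ^ 2 * (C₂ * N / η)) ≤ C₂ / 2 * s * N := by
    have h1 : ω ^ 2 ≤ (c * η) ^ 2 := pow_le_pow_left₀ hω hωc 2
    calc 1 / (2 * η) * (ω ^ 2 * (C₂ * N / η))
        ≤ 1 / (2 * η) * ((c * η) ^ 2 * (C₂ * N / η)) := by gcongr
      _ = C₂ / 2 * c ^ 2 * N := by field_simp
      _ ≤ C₂ / 2 * s * N := by gcongr
  have b2 : 1 / (2 * η) * (N * ε) ≤ 1 / 2 * s * N := by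
    calc 1 / (2 * η) * (N * ε) ≤ 1 / (2 * η) * (N * (c * η)) := by gcongr
      _ = 1 / 2 * c * N := by field_simp
      _ ≤ 1 / 2 * s * N := by gcongr
  have b3 : 1 / (2 * s) * (τ ^ 2 * (C₂ * N * L)) ≤ C₂ / 2 * s * N := by
    calc 1 / (2 * s) * (τ ^ 2 * (C₂ * N * L)) = 1 / (2 * s) * (C₂ * N * (τ ^ 2 * L)) := by ring
      _ ≤ 1 / (2 * s) * (C₂ * N * c) := by gcongr
      _ = 1 / (2 * s) * (C₂ * N * s ^ 2) := by rw [hss]
      _ = C₂ / 2 * s * N := by field_simp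
  have h1 : η * (CT * T) ≤ CT ^ 2 * c := by
    calc η * (CT * T) = CT * (η * T) := by ring
      _ ≤ CT * (CT * c) := mul_le_mul_of_nonneg_left hηT (by linarith)
      _ = CT ^ 2 * c := by ring
  have h2 : CT ^ 2 * c ≤ CT ^ 2 := by
    calc CT ^ 2 * c ≤ CT ^ 2 * 1 := mul_le_mul_of_nonneg_left hc1 (sq_nonneg _)
      _ = CT ^ 2 := mul_one _
  have h3 : CT ≤ CT ^ 2 := by
    calc CT = CT * 1 := (mul_one _).symm
      _ ≤ CT * CT := mul_le_mul_of_nonneg_left hCT (by linarith)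
      _ = CT ^ 2 := by ring
  have h5 : s / 2 * (CT + η * (CT * T)) ≤ s / 2 * (CT ^ 2 + CT ^ 2) :=
    mul_le_mul_of_nonneg_left (add_le_add h3 (h1.trans h2)) (by positivity)
  have h6 : CT ^ 2 * c ≤ CT ^ 2 * s := mul_le_mul_of_nonneg_left hcs (by positivity)
  have h7 : s / 2 * (CT ^ 2 + CT ^ 2) = CT ^ 2 * s := by ring
  have h4 : η * (CT * T) + s / 2 * (CT + η * (CT * T)) ≤ 2 * CT ^ 2 * s := by
    rw [h7] at h5
    linarith
  have b4 := mul_le_mul_of_nonneg_left h4 hN.le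
  have b5 : K * s * N ≤ cT / 4 * N := mul_le_mul_of_nonneg_right hsK hN.le
  have b6 : K * s * N = C₂ / 2 * s * N + 1 / 2 * s * N + C₂ / 2 * s * N +
      N * (2 * CT ^ 2 * s) := by
    rw [hK]
    ring
  linarith

/-- the numbers at the end -/
theorem num_fin {d : ℕ} {C₂ CT cT c η T N n t : ℝ} (hC₂ : 1 ≤ C₂) (hCT : 1 ≤ CT) (hcT : 0 < cT)
    (hc : 0 < c) (hη : 0 < η) (hN : 0 < N) (hT1 : c / η ≤ T)
    (ht : t = cT * η / (4 * C₂))
    (h : cT / 4 * N ≤ t / 2 * (C₂ * N / η) +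
      1 / (2 * t) * (n * (N * (CT * T ^ (-(((d : ℝ) + 1) / 2))) ^ 2))) :
    cT ^ 2 * c ^ (d + 1) / (16 * C₂ * CT ^ 2) * η ^ (-(d : ℝ)) ≤ n := by
  have hT0 : 0 < T := lt_of_lt_of_le (by positivity) hT1
  have hpow : (T ^ (-(((d : ℝ) + 1) / 2))) ^ 2 = (T ^ (d + 1))⁻¹ := by
    rw [← Real.rpow_natCast, ← Real.rpow_mul hT0.le, ← Real.rpow_natCast T (d + 1),
      ← Real.rpow_neg hT0.le]
    congr 1
    push_cast
    ring
  rw [mul_pow, hpow] at h
  have hCT0 : 0 < CT := by linarith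
  have hC₂0 : 0 < C₂ := by linarith
  have h8 : t / 2 * (C₂ * N / η) = cT / 8 * N := by
    rw [ht]
    field_simp
    ring
  rw [h8] at h
  have h9 : 1 / (2 * t) * (n * (N * (CT ^ 2 * (T ^ (d + 1))⁻¹))) =
      (2 * C₂ * CT ^ 2 / (cT * (η * T ^ (d + 1))) * n) * N := by
    rw [ht]
    field_simp
    ring
  rw [h9] at h
  have h10 : cT / 8 ≤ 2 * C₂ * CT ^ 2 / (cT * (η * T ^ (d + 1))) * n := by
    have h11 : cT / 8 * N ≤ (2 * C₂ * CT ^ 2 / (cT * (η * T ^ (d + 1))) * n) * N := by linarith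
    exact le_of_mul_le_mul_right h11 hN
  have h12 : (c / η) ^ (d + 1) ≤ T ^ (d + 1) := pow_le_pow_left₀ (by positivity) hT1 _
  have h13 : η ^ (-(d : ℝ)) = (η ^ d)⁻¹ := by
    rw [Real.rpow_neg hη.le, Real.rpow_natCast]
  rw [h13]
  have h14 : cT ^ 2 * (η * T ^ (d + 1)) ≤ 16 * C₂ * CT ^ 2 * n := by
    have h15 : 0 < cT * (η * T ^ (d + 1)) := by positivity
    have h16 := mul_le_mul_of_nonneg_right h10 h15.le
    have h17 : 2 * C₂ * CT ^ 2 / (cT * (η * T ^ (d + 1))) * n *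
        (cT * (η * T ^ (d + 1))) = 2 * C₂ * CT ^ 2 * n := by
      field_simp
    rw [h17] at h16
    have h20 : cT / 8 * (cT * (η * T ^ (d + 1))) = cT ^ 2 * (η * T ^ (d + 1)) / 8 := by ring
    rw [h20] at h16
    linarith
  have h18 : cT ^ 2 * (η * (c / η) ^ (d + 1)) ≤ 16 * C₂ * CT ^ 2 * n := by
    refine le_trans ?_ h14
    gcongr
  have h19 : cT ^ 2 * c ^ (d + 1) / (16 * C₂ * CT ^ 2) * (η ^ d)⁻¹ =
      cT ^ 2 * (η * (c / η) ^ (d + 1)) / (16 * C₂ * CT ^ 2) := by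
    rw [div_pow, pow_succ η d]
    field_simp
  rw [h19, div_le_iff₀ (by positivity)]
  linarith

theorem pai : PaiStmt := by
  intro d cT CT C₂ hd hcT hCT hC₂
  set K : ℝ := C₂ + 1 / 2 + 2 * CT ^ 2 with hKdef
  have hKpos : 0 < K := by positivity
  refine ⟨min 1 ((cT / (4 * K)) ^ 2), by positivity, fun c hc hc0 => ?_⟩
  refine ⟨cT ^ 2 * c ^ (d + 1) / (16 * C₂ * CT ^ 2), by positivity, ?_⟩
  intro C C' B D ψ F e E η ω ε τ T q v hη hη1 hω hωc hεc hτ hτc hT1 hT2 hCne hS hq hv ha hY hR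
  obtain ⟨q1, q2, q3, q4, q5, q6⟩ := hq
  have hc1 : c ≤ 1 := hc0.trans (min_le_left _ _)
  have hc2 : c ≤ (cT / (4 * K)) ^ 2 := hc0.trans (min_le_right _ _)
  have hs0 : 0 < √c := Real.sqrt_pos.2 hc
  have hs1 : √c ≤ 1 := Real.sqrt_le_one.2 hc1
  have hsK : K * √c ≤ cT / 4 := by
    have h1 : √c ≤ cT / (4 * K) := Real.sqrt_le_iff.2 ⟨by positivity, hc2⟩
    calc K * √c ≤ K * (cT / (4 * K)) := mul_le_mul_of_nonneg_left h1 hKpos.le
      _ = cT / 4 := by field_simp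
  have hN : (0 : ℝ) < C.card := by exact_mod_cast hCne.card_pos
  have hT0 : 0 < T := lt_of_lt_of_le (by positivity) hT1
  have hηT : η * T ≤ CT * c := by
    calc η * T ≤ η * (CT * (c / η)) := mul_le_mul_of_nonneg_left hT2 hη.le
      _ = CT * c := by field_simp
  -- the errors
  have herr' := (all_k hS hη q1 q2 hs0 hv q4 q5 ha hY).trans
    (num_err hC₂ hCT hc hc1 hs0 hs1 (Real.sq_sqrt hc.le) hη hω hωc hεc hτc hηT hN hKdef hsK)
  -- the upper bound
  have hp : Measurable fun θ : UnitAddTorus (Fin d) => q θ * (sy θ - E) :=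
    q1.mul ((continuous_sy.measurable).sub_const E)
  obtain ⟨Kp, hKp⟩ : ∃ Kp : ℝ, ∀ θ : UnitAddTorus (Fin d), |q θ * (sy θ - E)| ≤ Kp := by
    have hcont : Continuous fun θ : UnitAddTorus (Fin d) => |sy θ - E| :=
      (continuous_sy.sub continuous_const).abs
    obtain ⟨M, hM⟩ := (isCompact_range hcont).bddAbove
    refine ⟨CT * T * M, fun θ => ?_⟩
    rw [abs_mul]
    exact mul_le_mul (q2 θ) (hM ⟨θ, rfl⟩) (abs_nonneg _) (by positivity)
  have ht0 : 0 < cT * η / (4 * C₂) := by positivity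
  have hup := pair_le (C' := C') hv hp hKp q6 (fun k => lin C ψ (v k)) ht0
  -- comparison
  obtain ⟨Z, hZ⟩ : ∃ Z : C → ℂ, ∀ k, Z k = ∫ θ, ((q θ * (sy θ - E) : ℝ) : ℂ) *
    (hatS C' (lin C ψ (v k)) θ * conj (hatV (v k) θ)) := ⟨_, fun _ => rfl⟩
  obtain ⟨R, hRk⟩ : ∃ R : C → ℝ, ∀ k, R k = ∫ θ, q θ * ‖hatV (v k) θ‖ ^ 2 := ⟨_, fun _ => rfl⟩
  simp only [← hZ, ← hRk] at herr' hup hR
  have hcmp : cT / 2 * C.card ≤ ∑ k, ‖Z k‖ + cT / 4 * C.card := by
    refine hR.trans ?_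
    have h1 : |∑ k : C, R k| = ‖∑ k : C, ((R k : ℝ) : ℂ)‖ := by
      rw [← Complex.ofReal_sum, Complex.norm_real, Real.norm_eq_abs]
    have h2 : ∑ k : C, ((R k : ℝ) : ℂ) = ∑ k : C, (Z k + ((R k : ℝ) : ℂ)) - ∑ k : C, Z k := by
      rw [Finset.sum_add_distrib]
      ring
    rw [h1, h2]
    refine (norm_sub_le _ _).trans ?_
    have h3 := norm_sum_le Finset.univ (fun k : C => Z k + ((R k : ℝ) : ℂ))
    have h4 := norm_sum_le Finset.univ (fun k : C => Z k)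
    have h5 := h3.trans herr'
    linarith
  refine num_fin hC₂ hCT hcT hc hη hN hT1 rfl ?_
  have h1 : cT * η / (4 * C₂) / 2 * ∑ k : C, ∑ y ∈ C', ‖lin C ψ (v k) y‖ ^ 2 ≤
      cT * η / (4 * C₂) / 2 * (C₂ * C.card / η) :=
    mul_le_mul_of_nonneg_left ha (by positivity)
  linarith

end Pool.Agent.LE.CL.H67
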